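import Mathlib

/-!
Project EX, packaging: `sl_3(C)` as a real Lie algebra, matrix form.

HINTS.
`ideal_top`: `E i j c := Matrix.single i j c` (i ≠ j has trace 0).
Step 1: some `E i j c ∈ J` with `i ≠ j`, `c ≠ 0`: if `X j i ≠ 0` for some `j ≠ i`, use
`[E_ij, [E_ij, X]] = -2 E_ij X E_ij = -2 (X j i) E_ij` (`E_ij^2 = 0`); if `X` is diagonal, there are `i ≠ j` with
`X i i ≠ X j j` (otherwise `X = (X 0 0) • 1`, trace 0 gives `X = 0`), use `[E_ij, X] = (X j j - X i i) E_ij`.
Step 2: from `E i j c ∈ J`, `c ≠ 0`, `k` the third index: `[E_ij c, E_jk z] = E_ik (c z)` for every `z`, so all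
`E i k z ∈ J`; then `[E_ki 1, ..]`, `[E_ik w, E_kj z] = E_ij (w z)`, `[E_ji z, E_ik w] = E_jk (z w)` etc. give all
`E p q z`, `p ≠ q`.
Step 3: `gen_top` (note `J` is closed under brackets with itself because elements of `J` obtained have trace 0; or
repeat its argument): `[E_ij z, E_ji 1] = E_ii z - E_jj z`, and a trace zero matrix is the sum of its off-diagonal entries and
`E_00 (A 0 0) - E_11 (A 0 0)` and `E_22 (A 2 2) - E_11 (A 2 2)`.
-/

set_option autoImplicit false

namespace Pool.Agent.Helper17.EXP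

open Matrix

/-- offer EXP-1 -/
theorem gen_top (J : Submodule ℝ (Matrix (Fin 3) (Fin 3) ℂ))
    (hb : ∀ A B : Matrix (Fin 3) (Fin 3) ℂ, A ∈ J → B ∈ J → A * B - B * A ∈ J)
    (hs : ∀ (i j : Fin 3) (c : ℂ), i ≠ j → Matrix.single i j c ∈ J) :
    ∀ A : Matrix (Fin 3) (Fin 3) ℂ, A.trace = 0 → A ∈ J := by
  intro A hA
  have hd : ∀ (i j : Fin 3) (z : ℂ), i ≠ j →
      Matrix.single i i z - Matrix.single j j z ∈ J := by
    intro i j z hij
    have h := hb _ _ (hs i j z hij) (hs j i 1 hij.symm)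
    rwa [Matrix.single_mul_single_same, Matrix.single_mul_single_same, mul_one, one_mul] at h
  have h1 : A = (Matrix.single 0 1 (A 0 1) + Matrix.single 0 2 (A 0 2) +
      Matrix.single 1 0 (A 1 0) + Matrix.single 1 2 (A 1 2) + Matrix.single 2 0 (A 2 0) +
      Matrix.single 2 1 (A 2 1)) + (Matrix.single 0 0 (A 0 0) - Matrix.single 1 1 (A 0 0)) +
      (Matrix.single 2 2 (A 2 2) - Matrix.single 1 1 (A 2 2)) := by
    have ht : A 1 1 = - A 0 0 - A 2 2 := by
      rw [Matrix.trace_fin_three] at hA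
      linear_combination hA
    ext i j
    fin_cases i <;> fin_cases j <;> simp [ht]
    ring
  rw [h1]
  refine J.add_mem (J.add_mem (J.add_mem (J.add_mem (J.add_mem (J.add_mem (J.add_mem ?_ ?_) ?_)
    ?_) ?_) ?_) ?_) ?_
  · exact hs _ _ _ (by decide)
  · exact hs _ _ _ (by decide)
  · exact hs _ _ _ (by decide)
  · exact hs _ _ _ (by decide)
  · exact hs _ _ _ (by decide)
  · exact hs _ _ _ (by decide)
  · exact hd _ _ _ (by decide)
  · exact hd _ _ _ (by decide)

end Pool.Agent.Helper17.EXP
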