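import Pool.Agent.Helper17.EXP.Defs

/-!
Project EX, packaging: the smooth atlas of `SL_3(C)` and its Lie group structure.
-/

set_option autoImplicit false

open scoped Manifold ContDiff Topology

namespace Pool.Agent.Helper17.EXP

/-- the eight positions different from `(0, 0)` -/
abbrev Ix : Type := {p : Fin 3 × Fin 3 // p ≠ (0, 0)}

theorem card_Ix : Fintype.card (Ix × Bool) = 16 := by decide

/-- numbering of the sixteen real coordinates -/
noncomputable def nm : Ix × Bool ≃ Fin 16 := Fintype.equivFinOfCardEq card_Ix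

/-- forget the entry `(0, 0)` -/
noncomputable def LL (A : V) : H :=
  WithLp.toLp 2 (fun k => if (nm.symm k).2 then (A (nm.symm k).1.1.1 (nm.symm k).1.1.2).re
    else (A (nm.symm k).1.1.1 (nm.symm k).1.1.2).im)

/-- put `0` at the entry `(0, 0)` -/
noncomputable def MM (h : H) : V := fun i j =>
  if hp : (i, j) ≠ ((0 : Fin 3), (0 : Fin 3)) then
    ((h (nm (⟨(i, j), hp⟩, true)) : ℂ) + (h (nm (⟨(i, j), hp⟩, false)) : ℂ) * Complex.I)
  else 0

theorem LL_MM_congr (A : V) (h : H) (hA : ∀ i j, (i, j) ≠ ((0 : Fin 3), (0 : Fin 3)) → A i j = MM h i j) :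
    LL A = h := by
  ext k
  unfold LL
  simp only
  obtain ⟨⟨⟨⟨i, j⟩, hp⟩, b⟩, hk⟩ : ∃ q, nm q = k := ⟨nm.symm k, nm.apply_symm_apply k⟩
  subst hk
  simp only [Equiv.symm_apply_apply]
  rw [hA i j hp]
  unfold MM
  rw [dif_pos hp]
  cases b <;> simp

theorem MM_LL (A : V) (i j : Fin 3) (hp : (i, j) ≠ ((0 : Fin 3), (0 : Fin 3))) :
    MM (LL A) i j = A i j := by
  unfold MM LL
  rw [dif_pos hp]
  simp only [Equiv.symm_apply_apply]
  apply Complex.ext <;> simp

theorem contDiff_LL : ContDiff ℝ ∞ LL := by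
  rw [contDiff_euclidean]
  intro k
  unfold LL
  simp only
  by_cases hb : (nm.symm k).2
  · simp only [hb, if_true]
    have h1 : ContDiff ℝ ∞ (fun A : V => A (nm.symm k).1.1.1 (nm.symm k).1.1.2) := by fun_prop
    exact Complex.reCLM.contDiff.comp h1
  · simp only [hb]
    have h1 : ContDiff ℝ ∞ (fun A : V => A (nm.symm k).1.1.1 (nm.symm k).1.1.2) := by fun_prop
    exact Complex.imCLM.contDiff.comp h1

theorem contDiff_MM : ContDiff ℝ ∞ MM := by
  rw [contDiff_pi]
  intro i
  rw [contDiff_pi]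
  intro j
  unfold MM
  by_cases hp : (i, j) ≠ ((0 : Fin 3), (0 : Fin 3))
  · simp only [hp, ne_eq, not_false_eq_true, dif_pos]
    have h1 : ∀ k : Fin 16, ContDiff ℝ ∞ (fun h : H => (h k : ℂ)) := fun k => by
      have h2 : ContDiff ℝ ∞ (fun h : H => h k) := by fun_prop
      exact Complex.ofRealCLM.contDiff.comp h2
    exact (h1 _).add ((h1 _).mul contDiff_const)
  · simp only [hp, dif_neg, not_false_eq_true]
    exact contDiff_const

/-- the cofactor of the entry `(0, 0)` -/
def cf (A : V) : ℂ := A 1 1 * A 2 2 - A 1 2 * A 2 1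

/-- the part of the determinant without the entry `(0, 0)` -/
def rs (A : V) : ℂ := - A 0 1 * A 1 0 * A 2 2 +
    A 0 1 * A 1 2 * A 2 0 + A 0 2 * A 1 0 * A 2 1 - A 0 2 * A 1 1 * A 2 0

theorem dt_cf (A : V) : dt A = A 0 0 * cf A + rs A := by
  rw [dt_eq, cf, rs]; ring

/-- the inverse of the base chart -/
noncomputable def ps (h : H) : V := fun i j =>
  if (i, j) = ((0 : Fin 3), (0 : Fin 3)) then (1 - rs (MM h)) * (cf (MM h))⁻¹ else MM h i j

theorem cf_congr (A B : V) (h : ∀ i j, (i, j) ≠ ((0 : Fin 3), (0 : Fin 3)) → A i j = B i j) :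
    cf A = cf B := by
  unfold cf
  rw [h 1 1 (by decide), h 2 2 (by decide), h 1 2 (by decide), h 2 1 (by decide)]

theorem rs_congr (A B : V) (h : ∀ i j, (i, j) ≠ ((0 : Fin 3), (0 : Fin 3)) → A i j = B i j) :
    rs A = rs B := by
  unfold rs
  rw [h 0 1 (by decide), h 1 0 (by decide), h 2 2 (by decide), h 1 2 (by decide), h 2 0 (by decide),
    h 0 2 (by decide), h 2 1 (by decide), h 1 1 (by decide)]

theorem ps_ne (h : H) (i j : Fin 3) (hp : (i, j) ≠ ((0 : Fin 3), (0 : Fin 3))) : ps h i j = MM h i j := by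
  unfold ps
  rw [if_neg hp]

theorem dt_ps (h : H) (hh : cf (MM h) ≠ 0) : dt (ps h) = 1 := by
  rw [dt_cf, cf_congr (ps h) (MM h) (ps_ne h), rs_congr (ps h) (MM h) (ps_ne h)]
  have : ps h 0 0 = (1 - rs (MM h)) * (cf (MM h))⁻¹ := by
    unfold ps
    rw [if_pos rfl]
  rw [this, mul_assoc, inv_mul_cancel₀ hh]
  ring

theorem co_rt_ps (h : H) (hh : cf (MM h) ≠ 0) : co (rt (ps h)) = ps h := by
  have h1 := dt_ps h hh
  rw [co_rt _ (by rw [h1]; exact one_ne_zero)]
  funext i j
  simp [sc, h1]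

theorem contDiff_cf : ContDiff ℝ ∞ cf := by unfold cf; fun_prop
theorem contDiff_rs : ContDiff ℝ ∞ rs := by unfold rs; fun_prop

theorem contDiffOn_ps : ContDiffOn ℝ ∞ ps {h | cf (MM h) ≠ 0} := by
  rw [contDiffOn_pi]
  intro i
  rw [contDiffOn_pi]
  intro j
  unfold ps
  by_cases hp : (i, j) = ((0 : Fin 3), (0 : Fin 3))
  · simp only [hp, if_true]
    refine ContDiffOn.mul ?_ ?_
    · exact (contDiff_const.sub (contDiff_rs.comp contDiff_MM)).contDiffOn
    · exact ContDiffOn.inv (contDiff_cf.comp contDiff_MM).contDiffOn (fun A hA => hA)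
  · simp only [hp, if_false]
    have := contDiff_MM
    rw [contDiff_pi] at this
    have h2 := this i
    rw [contDiff_pi] at h2
    exact (h2 j).contDiffOn

theorem isOpen_tg : IsOpen {h : H | cf (MM h) ≠ 0} :=
  isOpen_ne_fun (contDiff_cf.comp contDiff_MM).continuous continuous_const

theorem isOpen_sr : IsOpen {x : G3 | cf (co x) ≠ 0} :=
  isOpen_ne_fun (contDiff_cf.continuous.comp continuous_co) continuous_const

theorem continuousOn_rt_ps : ContinuousOn (fun h => rt (ps h)) {h : H | cf (MM h) ≠ 0} := by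
  rw [co_isInducing.continuousOn_iff]
  refine contDiffOn_ps.continuousOn.congr ?_
  intro h hh
  exact co_rt_ps h hh

/-- the base chart, around `1` -/
noncomputable def e0 : OpenPartialHomeomorph G3 H where
  toFun x := LL (co x)
  invFun h := rt (ps h)
  source := {x | cf (co x) ≠ 0}
  target := {h | cf (MM h) ≠ 0}
  map_source' := by
    intro x hx
    simp only [Set.mem_setOf_eq] at *
    rwa [cf_congr (MM (LL (co x))) (co x) (MM_LL (co x))]
  map_target' := by
    intro h hh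
    simp only [Set.mem_setOf_eq] at *
    rw [co_rt_ps h hh, cf_congr (ps h) (MM h) (ps_ne h)]
    exact hh
  left_inv' := by
    intro x hx
    simp only [Set.mem_setOf_eq] at hx
    have h1 : cf (MM (LL (co x))) = cf (co x) := cf_congr _ _ (MM_LL (co x))
    have h2 : rs (MM (LL (co x))) = rs (co x) := rs_congr _ _ (MM_LL (co x))
    apply co_injective
    rw [co_rt_ps _ (by rw [h1]; exact hx)]
    funext i j
    unfold ps
    by_cases hp : (i, j) = ((0 : Fin 3), (0 : Fin 3))
    · rw [if_pos hp, h1, h2]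
      have h3 := dt_cf (co x)
      rw [dt_co] at h3
      have h4 : (1 : ℂ) - rs (co x) = co x 0 0 * cf (co x) := by rw [h3]; ring
      rw [h4, mul_assoc, mul_inv_cancel₀ hx, mul_one]
      simp only [Prod.mk.injEq] at hp
      rw [hp.1, hp.2]
    · rw [if_neg hp, MM_LL _ _ _ hp]
  right_inv' := by
    intro h hh
    simp only [Set.mem_setOf_eq] at hh
    rw [co_rt_ps h hh]
    exact LL_MM_congr _ _ (ps_ne h)
  open_source := isOpen_sr
  open_target := isOpen_tg
  continuousOn_toFun := (contDiff_LL.continuous.comp continuous_co).continuousOn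
  continuousOn_invFun := continuousOn_rt_ps

theorem one_mem_e0 : (1 : G3) ∈ e0.source := by
  show cf (co 1) ≠ 0
  simp [cf, co]

/-- charts given by smooth functions of the entries, with smooth inverse -/
def Good (e : OpenPartialHomeomorph G3 H) : Prop :=
  (∃ L : V → H, ContDiff ℝ ∞ L ∧ ∀ x ∈ e.source, e x = L (co x)) ∧
    ∃ P : H → V, ContDiffOn ℝ ∞ P e.target ∧ ∀ h ∈ e.target, co (e.symm h) = P h

/-- the chart around `g` -/
noncomputable def eg (g : G3) : OpenPartialHomeomorph G3 H :=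
  (Homeomorph.mulLeft g⁻¹).toOpenPartialHomeomorph.trans e0

theorem mem_eg (g : G3) : g ∈ (eg g).source := by
  unfold eg
  rw [OpenPartialHomeomorph.trans_source]
  refine ⟨trivial, ?_⟩
  show g⁻¹ * g ∈ e0.source
  rw [inv_mul_cancel]
  exact one_mem_e0

theorem good_eg (g : G3) : Good (eg g) := by
  constructor
  · refine ⟨fun A => LL (mm (co g⁻¹) A), contDiff_LL.comp (contDiff_mm.comp (contDiff_const.prodMk contDiff_id)), ?_⟩
    intro x _
    show LL (co (g⁻¹ * x)) = _
    rw [co_mul]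
  · refine ⟨fun h => mm (co g) (ps h), ?_, ?_⟩
    · have h1 : (eg g).target ⊆ {h | cf (MM h) ≠ 0} := by
        intro h hh
        unfold eg at hh
        rw [OpenPartialHomeomorph.trans_target] at hh
        exact hh.1
      exact contDiff_mm.comp_contDiffOn (contDiffOn_const.prodMk (contDiffOn_ps.mono h1))
    · intro h hh
      unfold eg at hh
      rw [OpenPartialHomeomorph.trans_target] at hh
      have h2 : cf (MM h) ≠ 0 := hh.1
      have h3 : (eg g).symm h = g * rt (ps h) := by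
        show (g⁻¹)⁻¹ * rt (ps h) = _
        rw [inv_inv]
      rw [h3, co_mul, co_rt_ps h h2]

noncomputable instance chartedG3 : ChartedSpace H G3 where
  atlas := {e | Good e}
  chartAt g := eg g
  mem_chart_source g := mem_eg g
  chart_mem_atlas g := good_eg g

theorem isManifoldG3 : IsManifold 𝓘(ℝ, H) ∞ G3 := by
  apply isManifold_of_contDiffOn
  intro e e' he he'
  obtain ⟨-, P, hP, hP'⟩ := (he : Good e)
  obtain ⟨⟨L, hL, hL'⟩, -⟩ := (he' : Good e')
  have h1 : ContDiffOn ℝ ∞ (fun h => L (P h)) (e.symm.trans e').source :=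
    hL.comp_contDiffOn (hP.mono (fun h hh => by
      rw [OpenPartialHomeomorph.trans_source] at hh
      exact hh.1))
  have h2 : ContDiffOn ℝ ∞ (e.symm.trans e') (e.symm.trans e').source := by
    refine h1.congr ?_
    intro h hh
    rw [OpenPartialHomeomorph.trans_source] at hh
    show e' (e.symm h) = L (P h)
    rw [hL' _ hh.2, hP' _ hh.1]
  simpa using h2

attribute [local instance] isManifoldG3

theorem contMDiff_co : ContMDiff 𝓘(ℝ, H) 𝓘(ℝ, V) ∞ co := by
  intro g
  obtain ⟨-, P, hP, hP'⟩ := good_eg g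
  have h1 : ContMDiffOn 𝓘(ℝ, H) 𝓘(ℝ, H) ∞ (chartAt H g) (chartAt H g).source := contMDiffOn_chart
  have h2 : ContMDiffOn 𝓘(ℝ, H) 𝓘(ℝ, V) ∞ P (eg g).target := hP.contMDiffOn
  have h3 : ContMDiffOn 𝓘(ℝ, H) 𝓘(ℝ, V) ∞ (P ∘ (eg g)) (eg g).source :=
    h2.comp h1 (fun x hx => (eg g).map_source hx)
  have h4 : ContMDiffOn 𝓘(ℝ, H) 𝓘(ℝ, V) ∞ co (eg g).source := by
    refine h3.congr ?_
    intro x hx
    show co x = P (eg g x)
    rw [← hP' _ ((eg g).map_source hx), (eg g).left_inv hx]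
  exact h4.contMDiffAt ((eg g).open_source.mem_nhds (mem_eg g))

/-- smoothness into `SL_3(C)` can be checked on the entries -/
theorem contMDiffAt_of_co {EM : Type*} [NormedAddCommGroup EM] [NormedSpace ℝ EM] {HM : Type*}
    [TopologicalSpace HM] {I : ModelWithCorners ℝ EM HM} {M : Type*} [TopologicalSpace M]
    [ChartedSpace HM M] {f : M → G3} {m : M} (hf : ContMDiffAt I 𝓘(ℝ, V) ∞ (fun x => co (f x)) m) :
    ContMDiffAt I 𝓘(ℝ, H) ∞ f m := by
  have hc : ContinuousAt f m := by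
    have := hf.continuousAt
    rwa [co_isInducing.continuousAt_iff]
  obtain ⟨⟨L, hL, hL'⟩, -⟩ := good_eg (f m)
  have h1 : ContMDiffOn 𝓘(ℝ, H) 𝓘(ℝ, H) ∞ (chartAt H (f m)).symm (chartAt H (f m)).target :=
    contMDiffOn_chart_symm
  have hev : ∀ᶠ x in 𝓝 m, f x ∈ (eg (f m)).source :=
    hc.eventually ((eg (f m)).open_source.mem_nhds (mem_eg (f m)))
  have h2 : ContMDiffAt I 𝓘(ℝ, H) ∞ (fun x => L (co (f x))) m :=
    (hL.contMDiff.contMDiffAt).comp m hf
  have h3 : ContMDiffAt 𝓘(ℝ, H) 𝓘(ℝ, H) ∞ (eg (f m)).symm (L (co (f m))) := by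
    refine h1.contMDiffAt ?_
    refine (eg (f m)).open_target.mem_nhds ?_
    rw [← hL' _ (mem_eg (f m))]
    exact (eg (f m)).map_source (mem_eg (f m))
  have h4 : ContMDiffAt I 𝓘(ℝ, H) ∞ (fun x => (eg (f m)).symm (L (co (f x)))) m :=
    ContMDiffAt.comp m h3 h2
  refine h4.congr_of_eventuallyEq ?_
  filter_upwards [hev] with x hx
  rw [← hL' _ hx, (eg (f m)).left_inv hx]

theorem contMDiff_of_co {EM : Type*} [NormedAddCommGroup EM] [NormedSpace ℝ EM] {HM : Type*}
    [TopologicalSpace HM] {I : ModelWithCorners ℝ EM HM} {M : Type*} [TopologicalSpace M]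
    [ChartedSpace HM M] {f : M → G3} (hf : ContMDiff I 𝓘(ℝ, V) ∞ (fun x => co (f x))) :
    ContMDiff I 𝓘(ℝ, H) ∞ f := fun m => contMDiffAt_of_co (hf m)

/-- adjugate on `V` -/
noncomputable def ad (A : V) : V := fun i j => Matrix.adjugate (Matrix.of A) i j

theorem contDiff_ad : ContDiff ℝ ∞ ad := by
  rw [contDiff_pi]
  intro i
  rw [contDiff_pi]
  intro j
  unfold ad
  simp only [Matrix.adjugate_fin_three]
  fin_cases i <;> fin_cases j <;> simp <;> fun_prop

theorem co_inv (x : G3) : co x⁻¹ = ad (co x) := by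
  funext i j
  rfl

theorem lieGroupG3 : LieGroup 𝓘(ℝ, H) ∞ G3 where
  contMDiff_mul := by
    apply contMDiff_of_co
    have h1 : ContMDiff (𝓘(ℝ, H).prod 𝓘(ℝ, H)) 𝓘(ℝ, V) ∞ (fun p : G3 × G3 => co p.1) :=
      contMDiff_co.comp contMDiff_fst
    have h2 : ContMDiff (𝓘(ℝ, H).prod 𝓘(ℝ, H)) 𝓘(ℝ, V) ∞ (fun p : G3 × G3 => co p.2) :=
      contMDiff_co.comp contMDiff_snd
    have h3 : ContMDiff (𝓘(ℝ, H).prod 𝓘(ℝ, H)) 𝓘(ℝ, V × V) ∞ (fun p : G3 × G3 => (co p.1, co p.2)) :=
      h1.prodMk_space h2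
    have h4 := contDiff_mm.contMDiff.comp h3
    refine h4.congr ?_
    intro p
    show co (p.1 * p.2) = mm (co p.1) (co p.2)
    exact co_mul _ _
  contMDiff_inv := by
    apply contMDiff_of_co
    have h4 := contDiff_ad.contMDiff.comp contMDiff_co
    refine h4.congr ?_
    intro p
    exact co_inv p

end Pool.Agent.Helper17.EXP
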