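import Pool.Agent.Helper17.EXP.Defs

/-!
Project EX, packaging: `SL_3(C)` is connected. For `A` in `SL_3(C)` the polynomial
`p(z) = det(1 + z (A - 1))` has finitely many zeros, so `{p ≠ 0}` is connected; apply the retraction `rt`.
-/

set_option autoImplicit false

open scoped ContDiff

namespace Pool.Agent.Helper17.EXP

theorem continuousOn_rt : ContinuousOn rt {A : V | dt A ≠ 0} := by
  rw [co_isInducing.continuousOn_iff]
  refine contDiffOn_sc.continuousOn.congr ?_
  intro A hA
  exact co_rt A hA

/-- the segment -/
noncomputable def sgm (A : G3) (z : ℂ) : V := fun i j => co 1 i j + z * (co A i j - co 1 i j)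

/-- the polynomial -/
noncomputable def pol (A : G3) : Polynomial ℂ :=
  (Matrix.of fun i j : Fin 3 =>
    Polynomial.C (co 1 i j) + Polynomial.X * Polynomial.C (co A i j - co 1 i j)).det

theorem eval_pol (A : G3) (z : ℂ) : (pol A).eval z = dt (sgm A z) := by
  unfold pol dt
  rw [← Polynomial.coe_evalRingHom, RingHom.map_det]
  congr 1
  ext i j
  simp [sgm]

theorem zeros_finite (A : G3) : {z : ℂ | dt (sgm A z) = 0}.Finite := by
  have h0 : pol A ≠ 0 := by
    intro h
    have h1 := eval_pol A 0
    rw [h, Polynomial.eval_zero] at h1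
    have h2 : sgm A 0 = co 1 := by
      funext i j
      simp [sgm]
    rw [h2, dt_co] at h1
    exact zero_ne_one h1
  refine ((pol A).roots.toFinset.finite_toSet).subset ?_
  intro z hz
  have hz' : dt (sgm A z) = 0 := hz
  rw [Finset.mem_coe, Multiset.mem_toFinset, Polynomial.mem_roots h0, Polynomial.IsRoot, eval_pol, hz']

theorem connectedSpace_G3 : ConnectedSpace G3 := by
  have hpre : PreconnectedSpace G3 := by
    refine ⟨isPreconnected_of_forall 1 (fun A _ => ?_)⟩
    have h1 : IsPreconnected {z : ℂ | dt (sgm A z) = 0}ᶜ :=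
      ((zeros_finite A).countable.isConnected_compl_of_one_lt_rank
        (by rw [Complex.rank_real_complex]; norm_num)).isPreconnected
    have h2 : Continuous (sgm A) := by
      unfold sgm
      fun_prop
    have h3 : ContinuousOn (fun z => rt (sgm A z)) {z : ℂ | dt (sgm A z) = 0}ᶜ :=
      continuousOn_rt.comp h2.continuousOn (fun z hz => hz)
    refine ⟨_, Set.subset_univ _, ?_, ?_, h1.image _ h3⟩
    · refine ⟨0, ?_, ?_⟩
      · show ¬ dt (sgm A 0) = 0
        have h4 : sgm A 0 = co 1 := by
          funext i j
          simp [sgm]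
        rw [h4, dt_co]
        exact one_ne_zero
      · show rt (sgm A 0) = 1
        have h4 : sgm A 0 = co 1 := by
          funext i j
          simp [sgm]
        rw [h4, rt_co]
    · have h4 : sgm A 1 = co A := by
        funext i j
        simp [sgm]
      refine ⟨1, ?_, ?_⟩
      · show ¬ dt (sgm A 1) = 0
        rw [h4, dt_co]
        exact one_ne_zero
      · show rt (sgm A 1) = A
        rw [h4, rt_co]
  exact ⟨⟨1⟩⟩

end Pool.Agent.Helper17.EXP
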