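import Mathlib

/-!
Project EX, packaging of `SL_3(C)` as a real Lie group: basic definitions.
-/

set_option autoImplicit false

open scoped Manifold ContDiff Topology

namespace Pool.Agent.Helper17.EXP

/-- the group -/
abbrev G3 : Type := Matrix.SpecialLinearGroup (Fin 3) ℂ

/-- the ambient real normed space of 3 x 3 complex matrices -/
abbrev V : Type := Fin 3 → Fin 3 → ℂ

/-- the model space -/
abbrev H : Type := EuclideanSpace ℝ (Fin 16)

/-- the inclusion -/
def co (x : G3) : V := fun i j => x.1 i j

theorem co_injective : Function.Injective co := by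
  intro x y h
  apply Subtype.ext
  funext i j
  exact congrFun (congrFun h i) j

theorem co_isInducing : Topology.IsInducing co := ⟨rfl⟩

theorem continuous_co : Continuous co := co_isInducing.continuous

/-- product of matrices on `V` -/
def mm (A B : V) : V := fun i j => ∑ k, A i k * B k j

theorem co_mul (x y : G3) : co (x * y) = mm (co x) (co y) := by
  funext i j
  simp [co, mm, Matrix.mul_apply]

/-- determinant on `V` -/
noncomputable def dt (A : V) : ℂ := Matrix.det (Matrix.of A)

theorem dt_eq (A : V) : dt A = A 0 0 * A 1 1 * A 2 2 - A 0 0 * A 1 2 * A 2 1 - A 0 1 * A 1 0 * A 2 2 +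
    A 0 1 * A 1 2 * A 2 0 + A 0 2 * A 1 0 * A 2 1 - A 0 2 * A 1 1 * A 2 0 := by
  unfold dt
  rw [Matrix.det_fin_three]
  rfl

theorem dt_co (x : G3) : dt (co x) = 1 := by
  have h : x.1.det = 1 := x.2
  exact h

/-- the diagonal scaling of the first column -/
noncomputable def sc (A : V) : V := fun i j => if j = 0 then (dt A)⁻¹ * A i j else A i j

theorem dt_sc (A : V) (hA : dt A ≠ 0) : dt (sc A) = 1 := by
  have this : (dt A)⁻¹ * dt A = 1 := inv_mul_cancel₀ hA
  have h2 := dt_eq A
  rw [dt_eq (sc A)]
  simp only [sc, Fin.isValue, if_true, one_ne_zero, if_false]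
  have h3 : ((2 : Fin 3) = 0) = False := by simp
  simp only [h3, if_false]
  generalize (dt A)⁻¹ = d at *
  rw [h2] at this
  linear_combination this

open Classical in
/-- the retraction of the invertible matrices onto `SL_3` (scaling of the first column) -/
noncomputable def rt (A : V) : G3 :=
  if h : dt A ≠ 0 then (⟨Matrix.of (sc A), by have := dt_sc A h; unfold dt at this; exact this⟩ : G3)
  else 1

theorem co_rt (A : V) (h : dt A ≠ 0) : co (rt A) = sc A := by
  have : rt A = (⟨Matrix.of (sc A), by have := dt_sc A h; unfold dt at this; exact this⟩ : G3) := by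
    unfold rt
    exact dif_pos h
  rw [this]
  rfl

theorem rt_co (x : G3) : rt (co x) = x := by
  apply co_injective
  rw [co_rt _ (by rw [dt_co]; exact one_ne_zero)]
  funext i j
  simp [sc, dt_co]

theorem dt_mm (x : G3) (A : V) : dt (mm (co x) A) = dt A := by
  unfold dt
  have : Matrix.of (mm (co x) A) = x.1 * Matrix.of A := by
    ext i j
    simp [mm, co, Matrix.mul_apply]
  rw [this, Matrix.det_mul, x.2, one_mul]

theorem rt_mm (x : G3) (A : V) (h : dt A ≠ 0) : rt (mm (co x) A) = x * rt A := by
  apply co_injective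
  rw [co_rt _ (by rwa [dt_mm]), co_mul, co_rt _ h]
  funext i j
  simp only [sc, mm, dt_mm]
  by_cases hj : j = 0
  · simp only [hj, if_true, Finset.mul_sum]
    refine Finset.sum_congr rfl fun k _ => by ring
  · simp [hj]

theorem contDiff_dt : ContDiff ℝ ∞ dt := by
  unfold dt
  simp only [Matrix.det_fin_three, Matrix.of_apply]
  fun_prop

theorem isOpen_dt : IsOpen {A : V | dt A ≠ 0} := isOpen_ne_fun contDiff_dt.continuous continuous_const

theorem contDiffOn_sc : ContDiffOn ℝ ∞ sc {A : V | dt A ≠ 0} := by
  rw [contDiffOn_pi]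
  intro i
  rw [contDiffOn_pi]
  intro j
  unfold sc
  by_cases hj : j = 0
  · simp only [hj, if_true]
    refine ContDiffOn.mul ?_ ?_
    · exact ContDiffOn.inv contDiff_dt.contDiffOn (fun A hA => hA)
    · fun_prop
  · simp only [hj, if_false]
    fun_prop

theorem contDiff_mm : ContDiff ℝ ∞ (fun p : V × V => mm p.1 p.2) := by
  unfold mm
  fun_prop

end Pool.Agent.Helper17.EXP
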