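import Pool.Agent.Helper17.EXP.Chart

/-!
Project EX, packaging: left-invariant derivations of `SL_3(C)`.
-/

set_option autoImplicit false

open scoped Manifold ContDiff Topology Derivation LieGroup

namespace Pool.Agent.Helper17.EXP

attribute [local instance] lieGroupG3

/-- the Lie algebra of the frozen statement -/
abbrev LD : Type := LeftInvariantDerivation 𝓘(ℝ, H) G3

/-- smooth real functions -/
abbrev CI : Type := C^∞⟮𝓘(ℝ, H), G3; ℝ⟯

/-- real part of an entry -/
noncomputable def re (i j : Fin 3) : CI :=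
  ⟨fun x => (co x i j).re, by
    have h1 : ContDiff ℝ ∞ (fun A : V => (A i j).re) := by
      have h2 : ContDiff ℝ ∞ (fun A : V => A i j) := by fun_prop
      exact Complex.reCLM.contDiff.comp h2
    exact h1.contMDiff.comp contMDiff_co⟩

/-- imaginary part of an entry -/
noncomputable def im (i j : Fin 3) : CI :=
  ⟨fun x => (co x i j).im, by
    have h1 : ContDiff ℝ ∞ (fun A : V => (A i j).im) := by
      have h2 : ContDiff ℝ ∞ (fun A : V => A i j) := by fun_prop
      exact Complex.imCLM.contDiff.comp h2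
    exact h1.contMDiff.comp contMDiff_co⟩

theorem re_apply (i j : Fin 3) (x : G3) : re i j x = (co x i j).re := rfl
theorem im_apply (i j : Fin 3) (x : G3) : im i j x = (co x i j).im := rfl

/-- the matrix of a left-invariant derivation -/
noncomputable def ρ (D : LD) : Matrix (Fin 3) (Fin 3) ℂ :=
  fun i j => ⟨D (re i j) 1, D (im i j) 1⟩

theorem D_apply (D : LD) (f : CI) (g : G3) : D f g = D (f.comp (𝑳 𝓘(ℝ, H) g)) 1 := by
  rw [← LeftInvariantDerivation.comp_L]
  show D f g = D f (g * 1)
  rw [mul_one]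

theorem comp_L_apply (f : CI) (g x : G3) : f.comp (𝑳 𝓘(ℝ, H) g) x = f (g * x) := rfl

theorem D_sum (D : LD) {ι : Type} (s : Finset ι) (f : ι → CI) :
    D (∑ k ∈ s, f k) = ∑ k ∈ s, D (f k) := by
  exact map_sum D.toDerivation f s

theorem CI_sum_apply {ι : Type} (s : Finset ι) (f : ι → CI) (x : G3) :
    (∑ k ∈ s, f k) x = ∑ k ∈ s, f k x := by
  have := map_sum (ContMDiffMap.evalRingHom (I := 𝓘(ℝ, H)) (n := ∞) (R := ℝ) x) f s
  exact this

theorem re_comp (i j : Fin 3) (g : G3) :
    (re i j).comp (𝑳 𝓘(ℝ, H) g) =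
      ∑ k, ((co g i k).re • re k j - (co g i k).im • im k j) := by
  ext x
  rw [comp_L_apply, re_apply, co_mul, CI_sum_apply]
  unfold mm
  rw [Complex.re_sum]
  refine Finset.sum_congr rfl fun k _ => ?_
  rw [Complex.mul_re]
  rfl

theorem im_comp (i j : Fin 3) (g : G3) :
    (im i j).comp (𝑳 𝓘(ℝ, H) g) =
      ∑ k, ((co g i k).re • im k j + (co g i k).im • re k j) := by
  ext x
  rw [comp_L_apply, im_apply, co_mul, CI_sum_apply]
  unfold mm
  rw [Complex.im_sum]
  refine Finset.sum_congr rfl fun k _ => ?_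
  rw [Complex.mul_im]
  rfl

theorem D_re (D : LD) (i j : Fin 3) (g : G3) :
    D (re i j) g = ∑ k, ((co g i k).re * (ρ D k j).re - (co g i k).im * (ρ D k j).im) := by
  rw [D_apply, re_comp, D_sum, CI_sum_apply]
  refine Finset.sum_congr rfl fun k _ => ?_
  rw [LeftInvariantDerivation.map_sub, LeftInvariantDerivation.map_smul, LeftInvariantDerivation.map_smul]
  rfl

theorem D_im (D : LD) (i j : Fin 3) (g : G3) :
    D (im i j) g = ∑ k, ((co g i k).re * (ρ D k j).im + (co g i k).im * (ρ D k j).re) := by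
  rw [D_apply, im_comp, D_sum, CI_sum_apply]
  refine Finset.sum_congr rfl fun k _ => ?_
  rw [LeftInvariantDerivation.map_add, LeftInvariantDerivation.map_smul, LeftInvariantDerivation.map_smul]
  rfl

theorem D_re' (D : LD) (i j : Fin 3) :
    D (re i j) = ∑ k, ((ρ D k j).re • re i k - (ρ D k j).im • im i k) := by
  ext g
  rw [D_re, CI_sum_apply]
  refine Finset.sum_congr rfl fun k _ => ?_
  show _ = (ρ D k j).re * (co g i k).re - (ρ D k j).im * (co g i k).im
  ring

theorem D_im' (D : LD) (i j : Fin 3) :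
    D (im i j) = ∑ k, ((ρ D k j).im • re i k + (ρ D k j).re • im i k) := by
  ext g
  rw [D_im, CI_sum_apply]
  refine Finset.sum_congr rfl fun k _ => ?_
  show _ = (ρ D k j).im * (co g i k).re + (ρ D k j).re * (co g i k).im
  ring

theorem DD_re (D D' : LD) (i j : Fin 3) :
    D (D' (re i j)) 1 = ((ρ D * ρ D') i j).re := by
  rw [D_re', D_sum, CI_sum_apply, Matrix.mul_apply, Complex.re_sum]
  refine Finset.sum_congr rfl fun k _ => ?_
  rw [LeftInvariantDerivation.map_sub, LeftInvariantDerivation.map_smul, LeftInvariantDerivation.map_smul,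
    Complex.mul_re]
  show (ρ D' k j).re * (ρ D i k).re - (ρ D' k j).im * (ρ D i k).im = _
  ring

theorem DD_im (D D' : LD) (i j : Fin 3) :
    D (D' (im i j)) 1 = ((ρ D * ρ D') i j).im := by
  rw [D_im', D_sum, CI_sum_apply, Matrix.mul_apply, Complex.im_sum]
  refine Finset.sum_congr rfl fun k _ => ?_
  rw [LeftInvariantDerivation.map_add, LeftInvariantDerivation.map_smul, LeftInvariantDerivation.map_smul,
    Complex.mul_im]
  show (ρ D' k j).im * (ρ D i k).re + (ρ D' k j).re * (ρ D i k).im = _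
  ring

theorem ρ_lie (D D' : LD) : ρ ⁅D, D'⁆ = ρ D * ρ D' - ρ D' * ρ D := by
  ext i j
  apply Complex.ext
  · rw [Matrix.sub_apply, Complex.sub_re, ← DD_re, ← DD_re]
    rfl
  · rw [Matrix.sub_apply, Complex.sub_im, ← DD_im, ← DD_im]
    rfl

theorem ρ_add (D D' : LD) : ρ (D + D') = ρ D + ρ D' := by
  ext i j
  apply Complex.ext <;> rfl

theorem ρ_smul (c : ℝ) (D : LD) : ρ (c • D) = c • ρ D := by
  ext i j
  apply Complex.ext
  · rw [Matrix.smul_apply, Complex.smul_re]
    rfl
  · rw [Matrix.smul_apply, Complex.smul_im]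
    rfl

/-- the linear version of `ρ` -/
noncomputable def ρl : LD →ₗ[ℝ] Matrix (Fin 3) (Fin 3) ℂ where
  toFun := ρ
  map_add' := ρ_add
  map_smul' := ρ_smul

end Pool.Agent.Helper17.EXP
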