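import Pool.Agent.Helper17.EXP.Der

/-!
Project EX, packaging: the matrix of a left-invariant derivation has trace zero; the derivations of the
off-diagonal matrix units.
-/

set_option autoImplicit false

open scoped Manifold ContDiff Topology Derivation LieGroup

namespace Pool.Agent.Helper17.EXP

attribute [local instance] lieGroupG3

/-- product of complex functions given by real and imaginary part -/
noncomputable def cmul (a b : CI × CI) : CI × CI := (a.1 * b.1 - a.2 * b.2, a.1 * b.2 + a.2 * b.1)

/-- value at `x` -/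
noncomputable def cval (a : CI × CI) (x : G3) : ℂ := ⟨a.1 x, a.2 x⟩

/-- derivative at `1` -/
noncomputable def cder (D : LD) (a : CI × CI) : ℂ := ⟨D a.1 1, D a.2 1⟩

theorem cval_mul (a b : CI × CI) (x : G3) : cval (cmul a b) x = cval a x * cval b x := by
  apply Complex.ext
  · rfl
  · rfl

theorem cval_add (a b : CI × CI) (x : G3) : cval (a + b) x = cval a x + cval b x := rfl
theorem cval_sub (a b : CI × CI) (x : G3) : cval (a - b) x = cval a x - cval b x := rfl

theorem cder_add (D : LD) (a b : CI × CI) : cder D (a + b) = cder D a + cder D b := by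
  apply Complex.ext
  · show D (a.1 + b.1) 1 = _
    rw [LeftInvariantDerivation.map_add]; rfl
  · show D (a.2 + b.2) 1 = _
    rw [LeftInvariantDerivation.map_add]; rfl

theorem cder_sub (D : LD) (a b : CI × CI) : cder D (a - b) = cder D a - cder D b := by
  apply Complex.ext
  · show D (a.1 - b.1) 1 = _
    rw [LeftInvariantDerivation.map_sub]; rfl
  · show D (a.2 - b.2) 1 = _
    rw [LeftInvariantDerivation.map_sub]; rfl

theorem D_mul_one (D : LD) (f h : CI) : D (f * h) 1 = f 1 * D h 1 + h 1 * D f 1 := by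
  rw [LeftInvariantDerivation.leibniz]
  rfl

theorem cder_mul (D : LD) (a b : CI × CI) :
    cder D (cmul a b) = cval a 1 * cder D b + cval b 1 * cder D a := by
  apply Complex.ext
  · show D (a.1 * b.1 - a.2 * b.2) 1 = _
    rw [LeftInvariantDerivation.map_sub]
    show D (a.1 * b.1) 1 - D (a.2 * b.2) 1 = _
    rw [D_mul_one, D_mul_one, Complex.add_re, Complex.mul_re, Complex.mul_re]
    show _ = a.1 1 * D b.1 1 - a.2 1 * D b.2 1 + (b.1 1 * D a.1 1 - b.2 1 * D a.2 1)
    ring
  · show D (a.1 * b.2 + a.2 * b.1) 1 = _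
    rw [LeftInvariantDerivation.map_add]
    show D (a.1 * b.2) 1 + D (a.2 * b.1) 1 = _
    rw [D_mul_one, D_mul_one, Complex.add_im, Complex.mul_im, Complex.mul_im]
    show _ = a.1 1 * D b.2 1 + a.2 1 * D b.1 1 + (b.1 1 * D a.2 1 + b.2 1 * D a.1 1)
    ring

/-- the entries -/
noncomputable def en (i j : Fin 3) : CI × CI := (re i j, im i j)

theorem cval_en (i j : Fin 3) (x : G3) : cval (en i j) x = co x i j := by
  apply Complex.ext <;> rfl

theorem cder_en (D : LD) (i j : Fin 3) : cder D (en i j) = ρ D i j := rfl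

/-- the determinant -/
noncomputable def dd : CI × CI :=
  cmul (cmul (en 0 0) (en 1 1)) (en 2 2) - cmul (cmul (en 0 0) (en 1 2)) (en 2 1) -
    cmul (cmul (en 0 1) (en 1 0)) (en 2 2) + cmul (cmul (en 0 1) (en 1 2)) (en 2 0) +
    cmul (cmul (en 0 2) (en 1 0)) (en 2 1) - cmul (cmul (en 0 2) (en 1 1)) (en 2 0)

theorem dd_eq : dd = (1, 0) := by
  have h : ∀ x, cval dd x = 1 := by
    intro x
    unfold dd
    simp only [cval_add, cval_sub, cval_mul, cval_en]
    rw [← dt_eq, dt_co]
  apply Prod.ext
  · ext x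
    exact congrArg Complex.re (h x)
  · ext x
    exact congrArg Complex.im (h x)

theorem D_one (D : LD) : D (1 : CI) = 0 := Derivation.map_one_eq_zero D.toDerivation

theorem cder_dd (D : LD) : cder D dd = 0 := by
  rw [dd_eq]
  apply Complex.ext
  · show D 1 1 = 0
    rw [D_one]; rfl
  · show D 0 1 = 0
    rw [LeftInvariantDerivation.map_zero]; rfl

theorem co_one (i j : Fin 3) : co 1 i j = if i = j then 1 else 0 := by
  show (1 : Matrix (Fin 3) (Fin 3) ℂ) i j = _
  rw [Matrix.one_apply]

theorem ρ_trace (D : LD) : (ρ D).trace = 0 := by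
  have h := cder_dd D
  unfold dd at h
  simp only [cder_add, cder_sub, cder_mul, cval_mul, cval_en, cder_en, co_one] at h
  rw [Matrix.trace_fin_three]
  simp at h
  linear_combination h

/-! ### the invariant derivations -/

/-- a function on the group as a function of matrices -/
noncomputable def fr (f : CI) : V → ℝ := fun A => f (rt A)

theorem contMDiffAt_rt (A : V) (h : dt A ≠ 0) : ContMDiffAt 𝓘(ℝ, V) 𝓘(ℝ, H) ∞ rt A := by
  apply contMDiffAt_of_co
  have h1 : ContDiffAt ℝ ∞ sc A := contDiffOn_sc.contDiffAt (isOpen_dt.mem_nhds h)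
  refine h1.contMDiffAt.congr_of_eventuallyEq ?_
  filter_upwards [isOpen_dt.mem_nhds h] with B hB
  exact co_rt B hB

theorem contDiffAt_fr (f : CI) (A : V) (h : dt A ≠ 0) : ContDiffAt ℝ ∞ (fr f) A := by
  have h1 : ContMDiffAt 𝓘(ℝ, V) 𝓘(ℝ, ℝ) ∞ (fr f) A :=
    ContMDiffAt.comp A (f.contMDiff.contMDiffAt) (contMDiffAt_rt A h)
  exact h1.contDiffAt

theorem contDiffOn_fr (f : CI) : ContDiffOn ℝ ∞ (fr f) {A | dt A ≠ 0} :=
  fun A hA => (contDiffAt_fr f A hA).contDiffWithinAt

/-- right multiplication by `X`, linear in the matrix -/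
theorem contDiff_mmr (X : V) : ContDiff ℝ ∞ (fun A : V => mm A X) := by
  unfold mm
  fun_prop

/-- the derivative of `f` in the direction `A X` -/
noncomputable def dv (X : V) (f : CI) (A : V) : ℝ := fderiv ℝ (fr f) A (mm A X)

theorem contDiffOn_dv (X : V) (f : CI) : ContDiffOn ℝ ∞ (dv X f) {A | dt A ≠ 0} := by
  have h1 : ContDiffOn ℝ ∞ (fderiv ℝ (fr f)) {A | dt A ≠ 0} :=
    (contDiffOn_fr f).fderiv_of_isOpen isOpen_dt (by simp)
  exact h1.clm_apply (contDiff_mmr X).contDiffOn

theorem dt_co_ne (x : G3) : dt (co x) ≠ 0 := by rw [dt_co]; exact one_ne_zero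

theorem contMDiff_dv (X : V) (f : CI) : ContMDiff 𝓘(ℝ, H) 𝓘(ℝ, ℝ) ∞ (fun g : G3 => dv X f (co g)) := by
  intro g
  have h1 : ContDiffAt ℝ ∞ (dv X f) (co g) :=
    (contDiffOn_dv X f).contDiffAt (isOpen_dt.mem_nhds (dt_co_ne g))
  exact ContMDiffAt.comp g h1.contMDiffAt (contMDiff_co g)

theorem differentiableAt_fr (f : CI) (x : G3) : DifferentiableAt ℝ (fr f) (co x) :=
  (contDiffAt_fr f (co x) (dt_co_ne x)).differentiableAt (by simp)

theorem fr_co (f : CI) (x : G3) : fr f (co x) = f x := by
  unfold fr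
  rw [rt_co]

/-- the linear map of the derivation -/
noncomputable def dXl (X : V) : CI →ₗ[ℝ] CI where
  toFun f := ⟨fun g => dv X f (co g), contMDiff_dv X f⟩
  map_add' f h := by
    ext g
    show fderiv ℝ (fr f + fr h) (co g) (mm (co g) X) = _
    rw [fderiv_add (differentiableAt_fr f g) (differentiableAt_fr h g)]
    rfl
  map_smul' c f := by
    ext g
    show fderiv ℝ (c • fr f) (co g) (mm (co g) X) = _
    rw [fderiv_const_smul (differentiableAt_fr f g)]
    rfl

/-- the derivation -/
noncomputable def dXd (X : V) : Derivation ℝ CI CI :=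
  Derivation.mk' (dXl X) (by
    intro f h
    ext g
    show fderiv ℝ (fr f * fr h) (co g) (mm (co g) X) = f g * dv X h (co g) + h g * dv X f (co g)
    rw [fderiv_mul (differentiableAt_fr f g) (differentiableAt_fr h g), fr_co, fr_co]
    rfl)

theorem dXd_apply (X : V) (f : CI) (g : G3) : dXd X f g = fderiv ℝ (fr f) (co g) (mm (co g) X) := rfl

/-- left multiplication as a continuous linear map -/
noncomputable def lm (B : V) : V →L[ℝ] V :=
  LinearMap.toContinuousLinearMap
    { toFun := fun A => mm B A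
      map_add' := by
        intro A A'
        funext i j
        simp [mm, mul_add, Finset.sum_add_distrib]
      map_smul' := by
        intro c A
        funext i j
        simp only [mm, RingHom.id_apply, Pi.smul_apply, Finset.smul_sum]
        refine Finset.sum_congr rfl fun k _ => ?_
        rw [mul_smul_comm] }

theorem lm_apply (B A : V) : lm B A = mm B A := rfl

theorem mm_one_left (A : V) : mm (co 1) A = A := by
  funext i j
  simp [mm, co_one]

theorem mm_one_right (A : V) : mm A (co 1) = A := by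
  funext i j
  simp [mm, co_one]

theorem dXd_left (X : V) (f : CI) (g : G3) :
    dXd X (f.comp (𝑳 𝓘(ℝ, H) g)) 1 = dXd X f g := by
  rw [dXd_apply, dXd_apply, mm_one_left]
  have h1 : fr (f.comp (𝑳 𝓘(ℝ, H) g)) =ᶠ[𝓝 (co 1)] (fr f) ∘ (lm (co g)) := by
    filter_upwards [isOpen_dt.mem_nhds (dt_co_ne 1)] with A hA
    show f (g * rt A) = f (rt (mm (co g) A))
    rw [rt_mm g A hA]
  rw [h1.fderiv_eq]
  have h2 : lm (co g) (co 1) = co g := by rw [lm_apply, mm_one_right]
  rw [fderiv_comp (co 1) (by rw [h2]; exact differentiableAt_fr f g) (lm (co g)).differentiableAt,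
    ContinuousLinearMap.fderiv, h2]
  rfl

/-- the left-invariant derivation -/
noncomputable def dX (X : V) : LD where
  toDerivation := dXd X
  left_invariant'' := by
    intro g
    ext f
    exact dXd_left X f g

theorem dt_line (i j : Fin 3) (hij : i ≠ j) (c : ℂ) (t : ℝ) :
    dt (co 1 + t • (fun k l => Matrix.single i j c k l)) = 1 := by
  rw [dt_eq]
  simp only [Pi.add_apply, Pi.smul_apply, co_one, Matrix.single_apply]
  fin_cases i <;> fin_cases j <;> simp at hij ⊢

theorem dX_single (i j : Fin 3) (hij : i ≠ j) (c : ℂ) :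
    ρ (dX (fun k l => Matrix.single i j c k l)) = Matrix.single i j c := by
  set X : V := fun k l => Matrix.single i j c k l with hX
  have key : ∀ (f : CI) (φ : ℂ →L[ℝ] ℝ) (k l : Fin 3), (∀ A : V, dt A = 1 → fr f A = φ (A k l)) →
      dX X f 1 = φ (X k l) := by
    intro f φ k l hf
    show fderiv ℝ (fr f) (co 1) (mm (co 1) X) = _
    rw [mm_one_left]
    have h1 : HasDerivAt (fun t : ℝ => co 1 + t • X) X 0 := by
      have := ((hasDerivAt_id (0 : ℝ)).smul_const X).const_add (co 1)
      simpa using this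
    have h2 : HasFDerivAt (fr f) (fderiv ℝ (fr f) (co 1)) (co 1 + (0 : ℝ) • X) := by
      rw [zero_smul, add_zero]
      exact (differentiableAt_fr f 1).hasFDerivAt
    have h3 := h2.comp_hasDerivAt (0 : ℝ) h1
    have h4 : (fr f ∘ fun t : ℝ => co 1 + t • X) = fun t : ℝ => φ (co 1 k l) + t * φ (X k l) := by
      funext t
      show fr f (co 1 + t • X) = _
      rw [hf _ (dt_line i j hij c t)]
      show φ (co 1 k l + t • X k l) = _
      rw [map_add, map_smul, smul_eq_mul]
    rw [h4] at h3
    have h5 : HasDerivAt (fun t : ℝ => φ (co 1 k l) + t * φ (X k l)) (φ (X k l)) 0 := by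
      have := ((hasDerivAt_id (0 : ℝ)).mul_const (φ (X k l))).const_add (φ (co 1 k l))
      simpa using this
    exact h3.unique h5
  have hsc : ∀ A : V, dt A = 1 → ∀ k l, co (rt A) k l = A k l := by
    intro A hA k l
    rw [co_rt A (by rw [hA]; exact one_ne_zero)]
    simp [sc, hA]
  ext k l
  apply Complex.ext
  · exact key (re k l) Complex.reCLM k l (fun A hA => by
      show (co (rt A) k l).re = _
      rw [hsc A hA]; rfl)
  · exact key (im k l) Complex.imCLM k l (fun A hA => by
      show (co (rt A) k l).im = _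
      rw [hsc A hA]; rfl)

end Pool.Agent.Helper17.EXP
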