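import Mathlib

/-!
Project EX, packaging: Hadamard's lemma.

HINT. `h y = ∫ t in 0..1, fderiv ℝ f (a + t • (y - a))` (interval integral, or set integral on `Icc 0 1`).
The identity is the fundamental theorem of calculus for `t ↦ f (a + t • (y - a))`
(`intervalIntegral.integral_eq_sub_of_hasDerivAt`, `ContinuousLinearMap.intervalIntegral_apply`).
Smoothness: either induction with `hasFDerivAt_integral_of_dominated_of_fderiv_le` (prove for all complete `F`,
all smooth `g : ℝ × E → F`: `y ↦ ∫ t in 0..1, g (t, y)` is `ContDiff ℝ n`, induction on `n`, `contDiff_succ_iff_hasFDerivAt`),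
or Mathlib's `MeasureTheory.contDiffOn_convolution_right_with_param` (file Mathlib/Analysis/Calculus/ContDiff/Convolution.lean)
with `f = indicator of [0,1]` on `G = ℝ` and `g p s = φ(s) • F(-s, p)`, `φ` a smooth bump equal to 1 on [-1,0] and the convolution
evaluated at `0`.
-/

set_option autoImplicit false

open scoped ContDiff

namespace Pool.Agent.Helper17.EXP

private theorem Had_par {E : Type} [NormedAddCommGroup E] [NormedSpace ℝ E]
    [FiniteDimensional ℝ E] (n : ℕ) : ∀ (F : Type) [NormedAddCommGroup F] [NormedSpace ℝ F]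
    [CompleteSpace F] (g : ℝ × E → F), ContDiff ℝ ∞ g →
    ContDiff ℝ n (fun y => ∫ t in (0 : ℝ)..1, g (t, y)) := by
  haveI : ProperSpace E := FiniteDimensional.proper ℝ E
  induction n with
  | zero =>
    intro F _ _ _ g hg
    rw [Nat.cast_zero, contDiff_zero]
    apply intervalIntegral.continuous_parametric_intervalIntegral_of_continuous'
    exact hg.continuous.comp (continuous_snd.prodMk continuous_fst)
  | succ n ih =>
    intro F _ _ _ g hg
    have hc : Continuous g := hg.continuous
    have hd : ∀ p, HasFDerivAt g (fderiv ℝ g p) p := fun p =>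
      (hg.differentiable (by simp) p).hasFDerivAt
    let g' : ℝ × E → (E →L[ℝ] F) := fun p =>
      (fderiv ℝ g p).comp (ContinuousLinearMap.inr ℝ ℝ E)
    have hg' : ContDiff ℝ ∞ g' := by
      have h1 : ContDiff ℝ ∞ (fderiv ℝ g) := hg.fderiv_right (by simp)
      exact h1.clm_comp contDiff_const
    have hc' : Continuous g' := hg'.continuous
    have hpd : ∀ t x, HasFDerivAt (fun x => g (t, x)) (g' (t, x)) x := by
      intro t x
      exact (hd (t, x)).comp x (hasFDerivAt_prodMk_right t x)
    have key : ContDiff ℝ ((n : ℕ∞ω) + 1) (fun y => ∫ t in (0 : ℝ)..1, g (t, y)) := by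
      rw [contDiff_succ_iff_hasFDerivAt]
      refine ⟨fun y => ∫ t in (0 : ℝ)..1, g' (t, y), ih _ g' hg', fun x => ?_⟩
      obtain ⟨C, hC⟩ := ((isCompact_Icc (a := (0 : ℝ)) (b := 1)).prod
        (isCompact_closedBall x 1)).exists_bound_of_continuousOn hc'.continuousOn
      apply intervalIntegral.hasFDerivAt_integral_of_dominated_of_fderiv_le
        (F := fun x t => g (t, x)) (F' := fun x t => g' (t, x)) (bound := fun _ => C)
        (s := Metric.closedBall x 1) (Metric.closedBall_mem_nhds x one_pos)
      · exact Filter.Eventually.of_forall fun y =>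
          (hc.comp (continuous_id.prodMk continuous_const)).aestronglyMeasurable
      · exact (hc.comp (continuous_id.prodMk continuous_const)).intervalIntegrable _ _
      · exact (hc'.comp (continuous_id.prodMk continuous_const)).aestronglyMeasurable
      · refine Filter.Eventually.of_forall fun t ht y hy => hC (t, y) ⟨?_, hy⟩
        rw [Set.uIoc_of_le zero_le_one] at ht
        exact ⟨ht.1.le, ht.2⟩
      · exact intervalIntegrable_const
      · exact Filter.Eventually.of_forall fun t _ y _ => hpd t y
    exact_mod_cast key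

/-- offer EXP-3 -/
theorem hadamard {E : Type} [NormedAddCommGroup E] [NormedSpace ℝ E] [FiniteDimensional ℝ E]
    (f : E → ℝ) (hf : ContDiff ℝ ∞ f) (a : E) :
    ∃ h : E → (E →L[ℝ] ℝ), ContDiff ℝ ∞ h ∧ ∀ y, f y = f a + h y (y - a) := by
  have h1 : ContDiff ℝ ∞ (fderiv ℝ f) := hf.fderiv_right (by simp)
  have h2 : ContDiff ℝ ∞ (fun p : ℝ × E => fderiv ℝ f (a + p.1 • (p.2 - a))) := by
    apply h1.comp
    exact contDiff_const.add (contDiff_fst.smul (contDiff_snd.sub contDiff_const))
  refine ⟨fun y => ∫ t in (0 : ℝ)..1, fderiv ℝ f (a + t • (y - a)), ?_, fun y => ?_⟩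
  · rw [contDiff_infty]
    intro n
    exact Had_par n _ (fun p : ℝ × E => fderiv ℝ f (a + p.1 • (p.2 - a))) h2
  · have h3 : Continuous fun t : ℝ => fderiv ℝ f (a + t • (y - a)) :=
      h2.continuous.comp (continuous_id.prodMk continuous_const)
    have h4 : ∀ t ∈ Set.uIcc (0 : ℝ) 1, HasDerivAt (fun t : ℝ => f (a + t • (y - a)))
        (fderiv ℝ f (a + t • (y - a)) (y - a)) t := by
      intro t _
      have h5 : HasDerivAt (fun t : ℝ => a + t • (y - a)) (y - a) t := by
        have := ((hasDerivAt_id t).smul_const (y - a)).const_add a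
        simpa using this
      exact ((hf.differentiable (by simp) _).hasFDerivAt).comp_hasDerivAt t h5
    have h6 := intervalIntegral.integral_eq_sub_of_hasDerivAt h4
      ((h3.clm_apply continuous_const).intervalIntegrable _ _)
    have h7 : (∫ t in (0 : ℝ)..1, fderiv ℝ f (a + t • (y - a))) (y - a) =
        ∫ t in (0 : ℝ)..1, fderiv ℝ f (a + t • (y - a)) (y - a) :=
      ContinuousLinearMap.intervalIntegral_apply (h3.intervalIntegrable _ _) _
    show f y = f a + (∫ t in (0 : ℝ)..1, fderiv ℝ f (a + t • (y - a))) (y - a)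
    rw [h7, h6]
    simp

end Pool.Agent.Helper17.EXP
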