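import Pool.Agent.Helper17.EXP.Alg

/-!
Project EX, packaging: a non-zero real ideal of `sl_3(C)` is everything (matrix form). See the hints in `Alg.lean`.
-/

set_option autoImplicit false

namespace Pool.Agent.Helper17.EXP

open Matrix

/-- offer EXP-2 -/
theorem ideal_top (J : Submodule ℝ (Matrix (Fin 3) (Fin 3) ℂ))
    (hJ : ∀ A B : Matrix (Fin 3) (Fin 3) ℂ, A.trace = 0 → B ∈ J → A * B - B * A ∈ J)
    (X : Matrix (Fin 3) (Fin 3) ℂ) (hX : X ∈ J) (hX0 : X ≠ 0) (hXt : X.trace = 0) :
    ∀ A : Matrix (Fin 3) (Fin 3) ℂ, A.trace = 0 → A ∈ J := by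
  have htr : ∀ (i j : Fin 3) (c : ℂ), i ≠ j → (Matrix.single i j c).trace = 0 := by
    intro i j c hij
    exact Matrix.trace_single_eq_of_ne i j c hij
  -- step 1
  have h1 : ∃ i j : Fin 3, ∃ c : ℂ, i ≠ j ∧ c ≠ 0 ∧ Matrix.single i j c ∈ J := by
    by_cases hoff : ∃ i j : Fin 3, i ≠ j ∧ X j i ≠ 0
    · obtain ⟨i, j, hij, hne⟩ := hoff
      refine ⟨i, j, -2 * X j i, hij, mul_ne_zero (by norm_num) hne, ?_⟩
      have h2 := hJ (Matrix.single i j 1) X (htr i j 1 hij) hX
      have h3 := hJ (Matrix.single i j 1) _ (htr i j 1 hij) h2
      have h4 : Matrix.single i j (1 : ℂ) * Matrix.single i j 1 = 0 :=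
        Matrix.single_mul_single_of_ne _ _ _ _ hij.symm _
      have h5 : Matrix.single i j (1 : ℂ) * X * Matrix.single i j 1 =
          Matrix.single i j (X j i) := by
        rw [Matrix.single_mul_mul_single, one_mul, mul_one]
      have h6 : Matrix.single i j (-2 * X j i) =
          Matrix.single i j 1 * (Matrix.single i j 1 * X - X * Matrix.single i j 1) -
          (Matrix.single i j 1 * X - X * Matrix.single i j 1) * Matrix.single i j 1 := by
        have h7 : Matrix.single i j (1 : ℂ) * (Matrix.single i j 1 * X - X * Matrix.single i j 1) -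
            (Matrix.single i j 1 * X - X * Matrix.single i j 1) * Matrix.single i j 1 =
            (Matrix.single i j 1 * Matrix.single i j 1) * X +
            X * (Matrix.single i j 1 * Matrix.single i j 1) -
            (Matrix.single i j 1 * X * Matrix.single i j 1 +
              Matrix.single i j 1 * X * Matrix.single i j 1) := by
          noncomm_ring
        rw [h7, h4, zero_mul, mul_zero, h5, ← Matrix.single_add]
        ext a b
        simp only [Matrix.single, Matrix.of_apply, Matrix.sub_apply, Matrix.add_apply,
          Matrix.zero_apply]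
        split_ifs <;> ring
      rw [h6]
      exact h3
    · push Not at hoff
      have hd : ∃ i j : Fin 3, i ≠ j ∧ X i i ≠ X j j := by
        by_contra hcon
        push Not at hcon
        apply hX0
        have e1 := hcon 0 1 (by decide)
        have e2 := hcon 0 2 (by decide)
        rw [Matrix.trace_fin_three] at hXt
        have e0 : X 0 0 = 0 := by
          have h3 : (3 : ℂ) * X 0 0 = 0 := by linear_combination hXt + e1 + e2
          exact (mul_eq_zero.1 h3).resolve_left (by norm_num)
        ext a b
        rw [Matrix.zero_apply]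
        by_cases hab : a = b
        · subst hab
          fin_cases a
          · exact e0
          · exact e1.symm.trans e0
          · exact e2.symm.trans e0
        · exact hoff b a (Ne.symm hab)
      obtain ⟨i, j, hij, hne⟩ := hd
      refine ⟨i, j, X j j - X i i, hij, sub_ne_zero.2 (Ne.symm hne), ?_⟩
      have h2 := hJ (Matrix.single i j 1) X (htr i j 1 hij) hX
      have h3 : Matrix.single i j (X j j - X i i) =
          Matrix.single i j 1 * X - X * Matrix.single i j 1 := by
        ext a b
        rw [Matrix.sub_apply]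
        have f1 : (Matrix.single i j (1 : ℂ) * X) a b = if a = i then X j b else 0 := by
          by_cases ha : a = i
          · subst ha
            rw [if_pos rfl, Matrix.single_mul_apply_same, one_mul]
          · rw [if_neg ha, Matrix.single_mul_apply_of_ne _ _ _ _ _ ha]
        have f2 : (X * Matrix.single i j (1 : ℂ)) a b = if b = j then X a i else 0 := by
          by_cases hb : b = j
          · subst hb
            rw [if_pos rfl, Matrix.mul_single_apply_same, mul_one]
          · rw [if_neg hb, Matrix.mul_single_apply_of_ne _ _ _ _ _ hb]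
        rw [f1, f2]
        by_cases ha : a = i
        · subst ha
          by_cases hb : b = j
          · subst hb
            rw [if_pos rfl, if_pos rfl, Matrix.single_apply_same]
          · rw [if_pos rfl, if_neg hb, Matrix.single_apply_of_ne _ _ _ _ _ (by tauto),
              hoff b j hb, sub_zero]
        · by_cases hb : b = j
          · subst hb
            rw [if_neg ha, if_pos rfl, Matrix.single_apply_of_ne _ _ _ _ _ (by tauto),
              hoff i a (Ne.symm ha), sub_zero]
          · rw [if_neg ha, if_neg hb, Matrix.single_apply_of_ne _ _ _ _ _ (by tauto), sub_zero]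
      rw [h3]
      exact h2
  -- step 2
  have ha : ∀ i j k : Fin 3, i ≠ j → j ≠ k → i ≠ k → (∀ z : ℂ, Matrix.single i j z ∈ J) →
      ∀ z : ℂ, Matrix.single i k z ∈ J := by
    intro i j k hij hjk hik hP z
    have h2 := hJ (Matrix.single j k 1) _ (htr j k 1 hjk) (hP z)
    rw [Matrix.single_mul_single_of_ne _ _ _ _ hik.symm, Matrix.single_mul_single_same,
      mul_one, zero_sub] at h2
    exact (Submodule.neg_mem_iff J).1 h2
  have hb : ∀ i j k : Fin 3, i ≠ j → j ≠ k → i ≠ k → (∀ z : ℂ, Matrix.single i j z ∈ J) →
      ∀ z : ℂ, Matrix.single k j z ∈ J := by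
    intro i j k hij hjk hik hP z
    have h2 := hJ (Matrix.single k i 1) _ (htr k i 1 hik.symm) (hP z)
    rw [Matrix.single_mul_single_same, Matrix.single_mul_single_of_ne _ _ _ _ hjk,
      one_mul, sub_zero] at h2
    exact h2
  have hs : ∀ (p q : Fin 3) (z : ℂ), p ≠ q → Matrix.single p q z ∈ J := by
    obtain ⟨i, j, c, hij, hc, hmem⟩ := h1
    have h3 : ∀ i j : Fin 3, ∃ k : Fin 3, k ≠ i ∧ k ≠ j := by decide
    have h4 : ∀ i j k : Fin 3, i ≠ j → k ≠ i → k ≠ j → ∀ p : Fin 3, p = i ∨ p = j ∨ p = k := by
      decide
    obtain ⟨k, hki, hkj⟩ := h3 i j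
    have hik : ∀ z : ℂ, Matrix.single i k z ∈ J := by
      intro z
      have h2 := hJ (Matrix.single j k (z / c)) _ (htr j k _ hkj.symm) hmem
      rw [Matrix.single_mul_single_of_ne _ _ _ _ hki, Matrix.single_mul_single_same,
        mul_div_cancel₀ _ hc, zero_sub] at h2
      exact (Submodule.neg_mem_iff J).1 h2
    have hij' := ha i k j hki.symm hkj hij hik
    have hjk := hb i k j hki.symm hkj hij hik
    have hkj' := hb i j k hij hkj.symm hki.symm hij'
    have hji := ha j k i hkj.symm hki hij.symm hjk
    have hki' := ha k j i hkj hij.symm hki hkj'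
    have hall := h4 i j k hij hki hkj
    intro p q z hpq
    rcases hall p with rfl | rfl | rfl <;> rcases hall q with rfl | rfl | rfl <;>
      first | exact absurd rfl hpq | exact hij' z | exact hik z | exact hjk z | exact hkj' z |
        exact hji z | exact hki' z
  -- step 3
  intro A hA
  have hmain := gen_top (J ⊓ LinearMap.ker (Matrix.traceLinearMap (Fin 3) ℝ ℂ))
    (by
      intro B C hB hC
      refine ⟨hJ B C ?_ hC.1, ?_⟩
      · exact hB.2
      · rw [SetLike.mem_coe, LinearMap.mem_ker, Matrix.traceLinearMap_apply, Matrix.trace_sub,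
          Matrix.trace_mul_comm, sub_self])
    (by
      intro i j c hij
      exact ⟨hs i j c hij, by
        rw [SetLike.mem_coe, LinearMap.mem_ker, Matrix.traceLinearMap_apply]
        exact htr i j c hij⟩) A hA
  exact hmain.1

end Pool.Agent.Helper17.EXP
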