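import Pool.Agent.Helper17.EXP.Der2
import Pool.Agent.Helper17.EXP.Had

/-!
Project EX, packaging: a left-invariant derivation of `SL_3(C)` is determined by its matrix.
-/

set_option autoImplicit false

open scoped Manifold ContDiff Topology Derivation LieGroup

namespace Pool.Agent.Helper17.EXP

attribute [local instance] lieGroupG3

/-- restriction of a smooth function of matrices -/
noncomputable def pl (F : V → ℝ) (hF : ContDiff ℝ ∞ F) : CI :=
  ⟨fun x => F (co x), hF.contMDiff.comp contMDiff_co⟩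

theorem pl_apply (F : V → ℝ) (hF : ContDiff ℝ ∞ F) (x : G3) : pl F hF x = F (co x) := rfl

/-- matrix unit -/
def sg (i j : Fin 3) (c : ℂ) : V := fun k l => if k = i ∧ l = j then c else 0

theorem sg_sum (A : V) :
    A = ∑ i, ∑ j, ((A i j).re • sg i j 1 + (A i j).im • sg i j Complex.I) := by
  funext k l
  simp only [Finset.sum_apply, Pi.add_apply, Pi.smul_apply, sg]
  rw [Finset.sum_eq_single k, Finset.sum_eq_single l]
  · apply Complex.ext <;> simp
  · intro b _ hb
    rw [if_neg (fun h => hb h.2.symm), if_neg (fun h => hb h.2.symm)]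
    simp
  · simp
  · intro b _ hb
    refine Finset.sum_eq_zero fun j _ => ?_
    rw [if_neg (fun h => hb h.1.symm), if_neg (fun h => hb h.1.symm)]
    simp
  · simp

theorem D_zero_at (D : LD) (hD : ρ D = 0) (i j : Fin 3) : D (re i j) 1 = 0 ∧ D (im i j) 1 = 0 := by
  have h : ρ D i j = 0 := by rw [hD]; rfl
  exact ⟨congrArg Complex.re h, congrArg Complex.im h⟩

theorem D_smul_one (D : LD) (c : ℝ) : D (c • (1 : CI)) 1 = 0 := by
  rw [LeftInvariantDerivation.map_smul, D_one, smul_zero]
  rfl

theorem D_pl (D : LD) (hD : ρ D = 0) (F : V → ℝ) (hF : ContDiff ℝ ∞ F) : D (pl F hF) 1 = 0 := by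
  obtain ⟨h, hh, hy⟩ := hadamard F hF (co 1)
  have hc : ∀ v : V, ContDiff ℝ ∞ (fun y : V => h y v) := fun v => hh.clm_apply contDiff_const
  have key : pl F hF = (F (co 1)) • (1 : CI) + ∑ i, ∑ j,
      ((re i j - (co 1 i j).re • (1 : CI)) * pl _ (hc (sg i j 1)) +
        (im i j - (co 1 i j).im • (1 : CI)) * pl _ (hc (sg i j Complex.I))) := by
    ext x
    rw [pl_apply, hy (co x)]
    show F (co 1) + h (co x) (co x - co 1) = (F (co 1)) * 1 + (∑ i, ∑ j,
      ((re i j - (co 1 i j).re • (1 : CI)) * pl _ (hc (sg i j 1)) +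
        (im i j - (co 1 i j).im • (1 : CI)) * pl _ (hc (sg i j Complex.I))) : CI) x
    rw [mul_one, CI_sum_apply]
    congr 1
    conv_lhs => rw [sg_sum (co x - co 1)]
    rw [map_sum]
    refine Finset.sum_congr rfl fun i _ => ?_
    rw [map_sum, CI_sum_apply]
    refine Finset.sum_congr rfl fun j _ => ?_
    rw [map_add, map_smul, map_smul]
    show ((co x i j - co 1 i j).re * _ + (co x i j - co 1 i j).im * _ : ℝ) =
      ((co x i j).re - (co 1 i j).re * 1) * _ + ((co x i j).im - (co 1 i j).im * 1) * _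
    rw [mul_one, mul_one, Complex.sub_re, Complex.sub_im]
    rfl
  rw [key, LeftInvariantDerivation.map_add]
  show D (F (co 1) • (1 : CI)) 1 + D (∑ i, ∑ j,
      ((re i j - (co 1 i j).re • (1 : CI)) * pl _ (hc (sg i j 1)) +
        (im i j - (co 1 i j).im • (1 : CI)) * pl _ (hc (sg i j Complex.I)))) 1 = 0
  rw [D_smul_one, zero_add, D_sum, CI_sum_apply]
  refine Finset.sum_eq_zero fun i _ => ?_
  rw [D_sum, CI_sum_apply]
  refine Finset.sum_eq_zero fun j _ => ?_
  have h1 : (re i j - (co 1 i j).re • (1 : CI)) 1 = 0 := by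
    show (co 1 i j).re - (co 1 i j).re * 1 = 0
    ring
  have h2 : (im i j - (co 1 i j).im • (1 : CI)) 1 = 0 := by
    show (co 1 i j).im - (co 1 i j).im * 1 = 0
    ring
  have h3 : D (re i j - (co 1 i j).re • (1 : CI)) 1 = 0 := by
    rw [LeftInvariantDerivation.map_sub]
    show D (re i j) 1 - D ((co 1 i j).re • (1 : CI)) 1 = 0
    rw [D_smul_one, (D_zero_at D hD i j).1, sub_zero]
  have h4 : D (im i j - (co 1 i j).im • (1 : CI)) 1 = 0 := by
    rw [LeftInvariantDerivation.map_sub]
    show D (im i j) 1 - D ((co 1 i j).im • (1 : CI)) 1 = 0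
    rw [D_smul_one, (D_zero_at D hD i j).2, sub_zero]
  rw [LeftInvariantDerivation.map_add]
  show D ((re i j - (co 1 i j).re • (1 : CI)) * pl _ (hc (sg i j 1))) 1 +
    D ((im i j - (co 1 i j).im • (1 : CI)) * pl _ (hc (sg i j Complex.I))) 1 = 0
  rw [D_mul_one, D_mul_one, h1, h2, h3, h4]
  ring

theorem D_local (D : LD) (hD : ρ D = 0) (f : CI) : D f 1 = 0 := by
  obtain ⟨r, hr, hr'⟩ := Metric.isOpen_iff.mp isOpen_dt (co 1) (dt_co_ne 1)
  let β : ContDiffBump (co 1) := ⟨r / 4, r / 2, by positivity, by linarith⟩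
  let χ : ContDiffBump (co 1) := ⟨r / 8, r / 4, by positivity, by linarith⟩
  have hβ : ∀ A, β A ≠ 0 → dt A ≠ 0 := by
    intro A hA
    have h1 : A ∈ Function.support β := hA
    rw [β.support_eq] at h1
    exact hr' (Metric.ball_subset_ball (by show r / 2 ≤ r; linarith) h1)
  have hF : ContDiff ℝ ∞ (fun A => β A * fr f A) := by
    rw [contDiff_iff_contDiffAt]
    intro A
    by_cases hA : dt A ≠ 0
    · exact β.contDiff.contDiffAt.mul (contDiffAt_fr f A hA)
    · have h1 : A ∉ tsupport β := by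
        rw [β.tsupport_eq]
        intro h2
        apply hA
        apply hr'
        have h3 : dist A (co 1) ≤ r / 2 := h2
        show dist A (co 1) < r
        linarith
      have h2 : (fun A => β A * fr f A) =ᶠ[𝓝 A] fun _ => 0 := by
        have h3 : β =ᶠ[𝓝 A] 0 := notMem_tsupport_iff_eventuallyEq.mp h1
        filter_upwards [h3] with B hB
        rw [hB]
        simp
      exact contDiffAt_const.congr_of_eventuallyEq h2
  have hprod : (f - pl _ hF) * pl _ χ.contDiff = 0 := by
    ext x
    show (f x - β (co x) * fr f (co x)) * χ (co x) = 0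
    rw [fr_co]
    by_cases hx : co x ∈ Metric.ball (co 1) (r / 4)
    · have h1 : β (co x) = 1 := β.one_of_mem_closedBall (Metric.ball_subset_closedBall hx)
      rw [h1]
      ring
    · have h1 : χ (co x) = 0 := by
        apply χ.zero_of_le_dist
        have h2 : ¬ dist (co x) (co 1) < r / 4 := hx
        exact not_lt.mp h2
      rw [h1, mul_zero]
  have h1 : D ((f - pl _ hF) * pl _ χ.contDiff) 1 = D (0 : CI) 1 := by rw [hprod]
  rw [D_mul_one, LeftInvariantDerivation.map_zero] at h1
  have h2 : (pl _ χ.contDiff : CI) 1 = 1 := by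
    show χ (co 1) = 1
    apply χ.one_of_mem_closedBall
    exact Metric.mem_closedBall_self (by show (0 : ℝ) ≤ r / 8; positivity)
  have h3 : (f - pl _ hF) 1 = 0 := by
    show f 1 - β (co 1) * fr f (co 1) = 0
    have h4 : β (co 1) = 1 := by
      apply β.one_of_mem_closedBall
      exact Metric.mem_closedBall_self (by show (0 : ℝ) ≤ r / 4; positivity)
    rw [h4, fr_co]
    ring
  rw [h2, h3, zero_mul, zero_add, one_mul, LeftInvariantDerivation.map_sub] at h1
  have h4 : D f 1 - D (pl _ hF) 1 = 0 := h1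
  rw [D_pl D hD _ hF, sub_zero] at h4
  exact h4

theorem ρ_inj (D : LD) (hD : ρ D = 0) : D = 0 := by
  apply LeftInvariantDerivation.ext
  intro f
  ext g
  rw [D_apply, D_local D hD]
  rfl

end Pool.Agent.Helper17.EXP
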