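import Pool.Agent.Helper17.EXP.Defs

/-!
Project EX, packaging: topology of `SL_3(C)` (not compact, finite center).

HINTS.
Not compact: `x ↦ ‖x.1 0 1‖` is continuous and unbounded (transvections `Matrix.transvection 0 1 c`, determinant 1).
Center: `Matrix.SpecialLinearGroup.center_equiv_rootsOfUnity` and finiteness of `rootsOfUnity 3 ℂ`.
-/

set_option autoImplicit false

namespace Pool.Agent.Helper17.EXP

/-- offer EXP-5 -/
theorem not_compactSpace_G3 : ¬ CompactSpace G3 := by
  intro hc
  have hf : Continuous (fun x : G3 => ‖co x 0 1‖) := by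
    have h1 : Continuous (fun x : G3 => co x 0 1) :=
      (continuous_apply (1 : Fin 3)).comp ((continuous_apply (0 : Fin 3)).comp continuous_co)
    exact h1.norm
  obtain ⟨B, hB⟩ := (isCompact_range hf).bddAbove
  have hdet : ∀ c : ℂ, (Matrix.transvection (0 : Fin 3) 1 c).det = 1 := fun c =>
    Matrix.det_transvection_of_ne 0 1 (by decide) c
  have h2 : ‖co (⟨Matrix.transvection 0 1 ((|B| + 1 : ℝ) : ℂ), hdet _⟩ : G3) 0 1‖ ≤ B :=
    hB ⟨_, rfl⟩
  have h3 : co (⟨Matrix.transvection 0 1 ((|B| + 1 : ℝ) : ℂ), hdet _⟩ : G3) 0 1 =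
      ((|B| + 1 : ℝ) : ℂ) := by
    simp [co, Matrix.transvection]
  rw [h3, Complex.norm_real, Real.norm_eq_abs] at h2
  have h4 := abs_nonneg B
  rw [abs_of_nonneg (by linarith)] at h2
  have h5 := le_abs_self B
  linarith

/-- offer EXP-5 -/
theorem finite_center_G3 : Finite (Subgroup.center G3) := by
  have : NeZero (Fintype.card (Fin 3)) := ⟨by simp⟩
  exact Finite.of_equiv _
    (Matrix.SpecialLinearGroup.center_equiv_rootsOfUnity' (R := ℂ) (0 : Fin 3)).symm.toEquiv

end Pool.Agent.Helper17.EXP
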