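import Pool.Agent.Helper17.EXP.Simple
import Pool.Agent.Helper17.EXP.Cnn
import Pool.Agent.Helper17.EXP.Top

/-!
Project EX, packaging: `SL_3(C)` satisfies the hypotheses of the frozen statement.

`chartedG3 : ChartedSpace (EuclideanSpace ℝ (Fin 16)) G3` (instance), `lieGroupG3` (theorem),
`connectedSpace_G3`, `not_compactSpace_G3`, `finite_center_G3`, `isSemisimple_LD`.
-/

set_option autoImplicit false

open scoped Manifold ContDiff

namespace Pool.Agent.Helper17.EXP

/-- whatever holds for all connected non-compact semisimple Lie groups with finite center holds for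
`SL_3(C)` with its usual topology -/
theorem pack (W : ∀ (G : Type) [TopologicalSpace G] [Group G], Prop)
    (h : ∀ (n : ℕ) (G : Type) [TopologicalSpace G] [Group G]
      [ChartedSpace (EuclideanSpace ℝ (Fin n)) G]
      [LieGroup 𝓘(ℝ, EuclideanSpace ℝ (Fin n)) ∞ G],
      ConnectedSpace G → ¬ CompactSpace G → Finite (Subgroup.center G) →
      LieAlgebra.IsSemisimple ℝ (LeftInvariantDerivation 𝓘(ℝ, EuclideanSpace ℝ (Fin n)) G) →
      W G) :
    W (Matrix.SpecialLinearGroup (Fin 3) ℂ) :=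
  @h 16 G3 _ _ chartedG3 lieGroupG3 connectedSpace_G3 not_compactSpace_G3 finite_center_G3
    isSemisimple_LD

/-- a bounded cocycle of degree five of `SL_3(C)` which is the coboundary of a continuous invariant cochain
but not of a bounded one refutes the frozen statement -/
theorem refute (b : (Fin 6 → G3) → ℝ) (h : (Fin 5 → G3) → ℝ)
    (hbc : Continuous b) (hbi : ∀ (g : G3) (x : Fin 6 → G3), b (fun j => g * x j) = b x)
    (hbb : ∃ C : ℝ, ∀ x : Fin 6 → G3, |b x| ≤ C)
    (hc : Continuous h) (hi : ∀ (g : G3) (x : Fin 5 → G3), h (fun j => g * x j) = h x)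
    (hd : ∀ x : Fin 6 → G3,
      b x = ∑ i : Fin 6, (-1 : ℝ) ^ (i : ℕ) * h (fun j => x (Fin.succAbove i j)))
    (hno : ¬ ∃ h' : (Fin 5 → G3) → ℝ, Continuous h' ∧
      (∀ (g : G3) (x : Fin 5 → G3), h' (fun j => g * x j) = h' x) ∧
      (∃ C : ℝ, ∀ x : Fin 5 → G3, |h' x| ≤ C) ∧
      ∀ x : Fin 6 → G3,
        b x = ∑ i : Fin 6, (-1 : ℝ) ^ (i : ℕ) * h' (fun j => x (Fin.succAbove i j))) :
    ¬ (∀ (n : ℕ) (G : Type) [TopologicalSpace G] [Group G]
    [ChartedSpace (EuclideanSpace ℝ (Fin n)) G]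
    [LieGroup 𝓘(ℝ, EuclideanSpace ℝ (Fin n)) ∞ G],
    ConnectedSpace G → ¬ CompactSpace G → Finite (Subgroup.center G) →
    LieAlgebra.IsSemisimple ℝ (LeftInvariantDerivation 𝓘(ℝ, EuclideanSpace ℝ (Fin n)) G) →
    ∀ k : ℕ,
      (∀ f : (Fin (k + 2) → G) → ℝ, Continuous f →
        (∀ (g : G) (x : Fin (k + 2) → G), f (fun j => g * x j) = f x) →
        (∀ x : Fin (k + 3) → G,
          ∑ i : Fin (k + 3), (-1 : ℝ) ^ (i : ℕ) * f (fun j => x (Fin.succAbove i j)) = 0) →
        ∃ b : (Fin (k + 2) → G) → ℝ, Continuous b ∧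
          (∀ (g : G) (x : Fin (k + 2) → G), b (fun j => g * x j) = b x) ∧
          (∃ C : ℝ, ∀ x : Fin (k + 2) → G, |b x| ≤ C) ∧
          ∃ h : (Fin (k + 1) → G) → ℝ, Continuous h ∧
            (∀ (g : G) (x : Fin (k + 1) → G), h (fun j => g * x j) = h x) ∧
            ∀ x : Fin (k + 2) → G,
              f x = b x + ∑ i : Fin (k + 2), (-1 : ℝ) ^ (i : ℕ) * h (fun j => x (Fin.succAbove i j))) ∧
      (∀ b : (Fin (k + 2) → G) → ℝ, Continuous b →
        (∀ (g : G) (x : Fin (k + 2) → G), b (fun j => g * x j) = b x) →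
        (∃ C : ℝ, ∀ x : Fin (k + 2) → G, |b x| ≤ C) →
        (∃ h : (Fin (k + 1) → G) → ℝ, Continuous h ∧
            (∀ (g : G) (x : Fin (k + 1) → G), h (fun j => g * x j) = h x) ∧
            ∀ x : Fin (k + 2) → G,
              b x = ∑ i : Fin (k + 2), (-1 : ℝ) ^ (i : ℕ) * h (fun j => x (Fin.succAbove i j))) →
        ∃ h' : (Fin (k + 1) → G) → ℝ, Continuous h' ∧
            (∀ (g : G) (x : Fin (k + 1) → G), h' (fun j => g * x j) = h' x) ∧
            (∃ C : ℝ, ∀ x : Fin (k + 1) → G, |h' x| ≤ C) ∧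
            ∀ x : Fin (k + 2) → G,
              b x = ∑ i : Fin (k + 2), (-1 : ℝ) ^ (i : ℕ) * h' (fun j => x (Fin.succAbove i j)))) := by
  intro hall
  have h1 := @hall 16 G3 _ _ chartedG3 lieGroupG3 connectedSpace_G3 not_compactSpace_G3
    finite_center_G3 isSemisimple_LD 4
  exact hno (h1.2 b hbc hbi hbb ⟨h, hc, hi, hd⟩)

end Pool.Agent.Helper17.EXP
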