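import Pool.Agent.Helper17.EXP.Inj
import Pool.Agent.Helper17.EXP.Idl

/-!
Project EX, packaging: the Lie algebra of left-invariant derivations of `SL_3(C)` is simple.
-/

set_option autoImplicit false

open scoped Manifold ContDiff Topology Derivation LieGroup

namespace Pool.Agent.Helper17.EXP

attribute [local instance] lieGroupG3

theorem ρl_apply (D : LD) : ρl D = ρ D := rfl

theorem range_ρ (A : Matrix (Fin 3) (Fin 3) ℂ) (hA : A.trace = 0) : ∃ D : LD, ρ D = A := by
  have h := gen_top (LinearMap.range ρl) (by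
    rintro _ _ ⟨D, rfl⟩ ⟨D', rfl⟩
    exact ⟨⁅D, D'⁆, ρ_lie D D'⟩) (by
    intro i j c hij
    exact ⟨dX (fun k l => Matrix.single i j c k l), dX_single i j hij c⟩) A hA
  obtain ⟨D, hD⟩ := h
  exact ⟨D, hD⟩

theorem ρ_injective (D D' : LD) (h : ρ D = ρ D') : D = D' := by
  have h1 : ρ (D - D') = 0 := by
    rw [← ρl_apply, map_sub, ρl_apply, ρl_apply, h, sub_self]
  exact sub_eq_zero.mp (ρ_inj _ h1)

theorem isSimple_LD : LieAlgebra.IsSimple ℝ LD where
  eq_bot_or_eq_top := by
    intro I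
    by_cases hI : I = ⊥
    · exact Or.inl hI
    right
    have h1 : ∃ D ∈ I, D ≠ 0 := by
      by_contra hcon
      push Not at hcon
      apply hI
      rw [eq_bot_iff]
      intro D hD
      rw [hcon D hD]
      exact zero_mem _
    obtain ⟨D, hD, hD0⟩ := h1
    have h2 := ideal_top ((I : Submodule ℝ LD).map ρl) (by
      rintro A _ hA ⟨B, hB, rfl⟩
      obtain ⟨X, hX⟩ := range_ρ A hA
      refine ⟨⁅X, B⁆, I.lie_mem hB, ?_⟩
      rw [ρl_apply, ρ_lie, hX]
      rfl) (ρ D) ⟨D, hD, rfl⟩ (by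
      intro h3
      exact hD0 (ρ_inj D h3)) (ρ_trace D)
    rw [eq_top_iff]
    intro X _
    obtain ⟨Y, hY, hY'⟩ := h2 (ρ X) (ρ_trace X)
    have h3 : Y = X := ρ_injective Y X hY'
    rw [← h3]
    exact hY
  non_abelian := by
    intro hab
    obtain ⟨X, hX⟩ := range_ρ (Matrix.single 0 1 1) (Matrix.trace_single_eq_of_ne 0 1 1 (by decide))
    obtain ⟨Y, hY⟩ := range_ρ (Matrix.single 1 0 1) (Matrix.trace_single_eq_of_ne 1 0 1 (by decide))
    have h1 : ⁅X, Y⁆ = 0 := hab.trivial X Y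
    have h2 := ρ_lie X Y
    rw [h1, hX, hY] at h2
    have h3 : ρ (0 : LD) = 0 := ρl.map_zero
    rw [h3, Matrix.single_mul_single_same, Matrix.single_mul_single_same] at h2
    have h4 := congrFun (congrFun h2 0) 0
    simp at h4

theorem isSemisimple_LD : LieAlgebra.IsSemisimple ℝ LD := by
  have := isSimple_LD
  infer_instance

end Pool.Agent.Helper17.EXP
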